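import Pool.Agent.Helper919.Char
import Pool.Agent.W762.EC.SSA
import Pool.Agent.Y862.SQ.Stm

/-!
# Project SQ: the sum over the large primes of the Legendre symbols of `-h`
-/

set_option autoImplicit false

open Finset Filter Topology

namespace Pool.Agent.Y848.SQ

open Pool.Agent.H262R3.Lk.SWQ
open Pool.Agent.Helper919

/-- A primitive character of small conductor agreeing with the symbol of `-h`. -/
theorem char_exists (h : ℕ) (hh : 1 ≤ h) : ∃ q : ℕ, 1 < q ∧ q ≤ 4 * h ∧
    ∃ χ : DirichletCharacter ℂ q, χ.IsPrimitive ∧ ∀ p : ℕ, p.Prime → 4 * h < p →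
      χ (p : ZMod q) = ((jacobiSym (-(h : ℤ)) p : ℤ) : ℂ) := by
  have hn : (-(h : ℤ)) ≠ 0 := by omega
  have hsq : ¬ IsSquare (-(h : ℤ)) := by
    rintro ⟨r, hr⟩
    nlinarith [mul_self_nonneg r]
  have habs : (-(h : ℤ)).natAbs = h := by simp
  set ψ := psi (-(h : ℤ)) hn with hψ
  have hlev : 4 * (-(h : ℤ)).natAbs = 4 * h := by rw [habs]
  have hne : NeZero (4 * (-(h : ℤ)).natAbs) := ⟨by omega⟩
  have h1 : ψ ≠ 1 := psi_ne_one _ hn hsq
  have hc0 : ψ.conductor ≠ 0 := DirichletCharacter.conductor_ne_zero _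
  have hc1 : ψ.conductor ≠ 1 := fun hc =>
    h1 (DirichletCharacter.eq_one_iff_conductor_eq_one.2 hc)
  have hc2 : ψ.conductor ≤ 4 * (-(h : ℤ)).natAbs :=
    Nat.le_of_dvd (by omega) (DirichletCharacter.conductor_dvd_level _)
  refine ⟨ψ.conductor, by omega, by omega, ψ.primitiveCharacter,
    ψ.primitiveCharacter_isPrimitive, fun p hp hlt => ?_⟩
  have hcop : Nat.Coprime p (4 * (-(h : ℤ)).natAbs) := by
    rw [hlev]
    exact (Nat.Prime.coprime_iff_not_dvd hp).2 fun hd => by
      have := Nat.le_of_dvd (by omega) hd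
      omega
  have hc : IsCoprime (p : ℤ) ((4 * (-(h : ℤ)).natAbs : ℕ) : ℤ) :=
    Nat.isCoprime_iff_coprime.2 hcop
  have h2 := DirichletCharacter.primitiveCharacter_apply_of_isCoprime ψ hc
  rw [Int.cast_natCast, Int.cast_natCast] at h2
  rw [h2, hψ, psi_apply, XX_apply, if_pos (hp.odd_of_ne_two (by omega))]
  push_cast
  rfl

/-- the weight -/
noncomputable def g (k : ℕ) : ℝ := 1 / ((k : ℝ) * Real.log k)

theorem abel {q : ℕ} (χ : DirichletCharacter ℂ q) (M : ℕ) (N : ℕ) (hMN : M ≤ N) :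
    ∑ k ∈ Ioc M N, av χ k * (g k : ℂ) = SS χ N * (g (N + 1) : ℂ) - SS χ M * (g (M + 1) : ℂ) +
      ∑ k ∈ Ioc M N, SS χ k * ((g k : ℂ) - (g (k + 1) : ℂ)) := by
  induction N, hMN using Nat.le_induction with
  | base => simp
  | succ N hN ih =>
    have h1 : Ioc M (N + 1) = insert (N + 1) (Ioc M N) := by
      ext k; simp only [mem_Ioc, mem_insert]; omega
    have h2 : SS χ (N + 1) = SS χ N + av χ (N + 1) := by
      unfold SS
      rw [Finset.sum_Icc_succ_top (by omega)]
    rw [h1, Finset.sum_insert (by simp), Finset.sum_insert (by simp), ih, h2]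
    ring

theorem g_nonneg (k : ℕ) : 0 ≤ g k := by
  unfold g
  have : 0 ≤ Real.log k := Real.log_natCast_nonneg k
  positivity

/-- one term of the partial summation -/
theorem term_le (A M k : ℕ) (hM : 3 ≤ M) (hk : M ≤ k) :
    12 * (k : ℝ) / (Real.log k) ^ (A + 1) * |g k - g (k + 1)| ≤
      48 / (Real.log M) ^ A * (1 / Real.log k - 1 / Real.log ((k : ℝ) + 1)) := by
  have hM3 : (3 : ℝ) ≤ M := by exact_mod_cast hM
  have hMk : (M : ℝ) ≤ k := by exact_mod_cast hk
  have hk0 : (0 : ℝ) < k := by linarith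
  have hlM : 1 ≤ Real.log M := by
    rw [Real.le_log_iff_exp_le (by linarith)]
    have := Real.exp_one_lt_d9
    linarith
  have hlk : Real.log M ≤ Real.log k := Real.log_le_log (by linarith) hMk
  have hlk1 : 1 ≤ Real.log k := hlM.trans hlk
  set L := Real.log k with hL
  set L' := Real.log ((k : ℝ) + 1) with hL'
  have hLL : L ≤ L' := Real.log_le_log hk0 (by linarith)
  have hd1 : L' - L ≤ 1 / k := by
    rw [hL', hL, ← Real.log_div (by linarith) (by linarith)]
    have := Real.log_le_sub_one_of_pos (show 0 < ((k : ℝ) + 1) / k by positivity)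
    have h2 : ((k : ℝ) + 1) / k - 1 = 1 / k := by field_simp; ring
    linarith
  have hd2 : 1 / ((k : ℝ) + 1) ≤ L' - L := by
    rw [hL', hL, ← Real.log_div (by linarith) (by linarith)]
    have := Real.one_sub_inv_le_log_of_pos (show 0 < ((k : ℝ) + 1) / k by positivity)
    have h2 : 1 - (((k : ℝ) + 1) / k)⁻¹ = 1 / ((k : ℝ) + 1) := by field_simp; ring
    linarith
  have hL2 : L' ≤ 2 * L := by
    have : 1 / (k : ℝ) ≤ 1 := by
      rw [div_le_one hk0]; linarith
    linarith
  have hLp : 0 < L := by linarith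
  have hLp' : 0 < L' := by linarith
  -- the difference of the weights
  have hg : g k - g (k + 1) = (((k : ℝ) + 1) * L' - k * L) / (k * L * (((k : ℝ) + 1) * L')) := by
    unfold g
    push_cast
    rw [← hL, ← hL']
    field_simp
  have hg0 : 0 ≤ g k - g (k + 1) := by
    rw [hg]
    apply div_nonneg
    · nlinarith
    · positivity
  have hg1 : g k - g (k + 1) ≤ 2 / (k * ((k : ℝ) + 1) * L) := by
    rw [hg, div_le_div_iff₀ (by positivity) (by positivity)]
    have h3 : k * (L' - L) ≤ 1 := by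
      have := mul_le_mul_of_nonneg_left hd1 hk0.le
      rwa [mul_one_div_cancel hk0.ne'] at this
    have h4 : ((k : ℝ) + 1) * L' - k * L ≤ 2 * L' := by linarith
    have h5 : 0 ≤ (k : ℝ) * ((k : ℝ) + 1) * L := by positivity
    calc (((k : ℝ) + 1) * L' - k * L) * (k * ((k : ℝ) + 1) * L)
        ≤ (2 * L') * (k * ((k : ℝ) + 1) * L) := mul_le_mul_of_nonneg_right h4 h5
      _ = 2 * (k * L * (((k : ℝ) + 1) * L')) := by ring
  rw [abs_of_nonneg hg0]
  have hstep : 1 / L - 1 / L' = (L' - L) / (L * L') := by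
    field_simp
  have hfin : 1 / (2 * ((k : ℝ) + 1) * L ^ 2) ≤ 1 / L - 1 / L' := by
    rw [hstep, div_le_div_iff₀ (by positivity) (by positivity)]
    have h6 : 1 ≤ (L' - L) * ((k : ℝ) + 1) := by
      have := mul_le_mul_of_nonneg_right hd2 (show (0:ℝ) ≤ (k : ℝ) + 1 by positivity)
      rwa [one_div_mul_cancel (by positivity)] at this
    have h7 : L * L' ≤ 2 * L ^ 2 := by nlinarith
    calc 1 * (L * L') ≤ 2 * L ^ 2 := by linarith
      _ = 1 * (2 * L ^ 2) := by ring
      _ ≤ ((L' - L) * ((k : ℝ) + 1)) * (2 * L ^ 2) :=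
        mul_le_mul_of_nonneg_right h6 (by positivity)
      _ = (L' - L) * (2 * ((k : ℝ) + 1) * L ^ 2) := by ring
  calc 12 * (k : ℝ) / L ^ (A + 1) * (g k - g (k + 1))
      ≤ 12 * (k : ℝ) / L ^ (A + 1) * (2 / (k * ((k : ℝ) + 1) * L)) :=
        mul_le_mul_of_nonneg_left hg1 (by positivity)
    _ = 48 / L ^ A * (1 / (2 * ((k : ℝ) + 1) * L ^ 2)) := by
        field_simp
        ring
    _ ≤ 48 / (Real.log M) ^ A * (1 / (2 * ((k : ℝ) + 1) * L ^ 2)) := by
        apply mul_le_mul_of_nonneg_right _ (by positivity)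
        exact div_le_div_of_nonneg_left (by norm_num) (by positivity)
          (pow_le_pow_left₀ (by linarith) hlk _)
    _ ≤ 48 / (Real.log M) ^ A * (1 / L - 1 / L') :=
        mul_le_mul_of_nonneg_left hfin (by positivity)

theorem tele (M N : ℕ) (hMN : M ≤ N) :
    ∑ k ∈ Ioc M N, (1 / Real.log k - 1 / Real.log ((k : ℝ) + 1)) =
      1 / Real.log ((M : ℝ) + 1) - 1 / Real.log ((N : ℝ) + 1) := by
  induction N, hMN using Nat.le_induction with
  | base => simp
  | succ N hN ih =>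
    have h1 : Ioc M (N + 1) = insert (N + 1) (Ioc M N) := by
      ext k; simp only [mem_Ioc, mem_insert]; omega
    rw [h1, Finset.sum_insert (by simp), ih]
    push_cast
    ring

/-- the sum over the large primes for one character -/
theorem sum_bound {q : ℕ} (χ : DirichletCharacter ℂ q) (A M N : ℕ) (hM : 3 ≤ M) (hMN : M ≤ N)
    (hS : ∀ k, M ≤ k → ‖SS χ k‖ ≤ 12 * k / (Real.log k) ^ (A + 1)) :
    ‖∑ k ∈ Ioc M N, av χ k * (g k : ℂ)‖ ≤ 72 / (Real.log M) ^ A := by
  have hM3 : (3 : ℝ) ≤ M := by exact_mod_cast hM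
  have hlM : 1 ≤ Real.log M := by
    rw [Real.le_log_iff_exp_le (by linarith)]
    have := Real.exp_one_lt_d9
    linarith
  have hb : ∀ k : ℕ, M ≤ k → ‖SS χ k * (g (k + 1) : ℂ)‖ ≤ 12 / (Real.log M) ^ A := by
    intro k hk
    have hMk : (M : ℝ) ≤ k := by exact_mod_cast hk
    have hk0 : (0 : ℝ) < k := by linarith
    have hlk : Real.log M ≤ Real.log k := Real.log_le_log (by linarith) hMk
    have hlk1 : Real.log k ≤ Real.log ((k : ℝ) + 1) := Real.log_le_log hk0 (by linarith)
    have hlkp : 0 < Real.log k := by linarith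
    rw [norm_mul, Complex.norm_real, Real.norm_of_nonneg (g_nonneg _)]
    have hg : g (k + 1) ≤ 1 / k := by
      unfold g
      push_cast
      apply div_le_div_of_nonneg_left (by norm_num) hk0
      nlinarith
    calc ‖SS χ k‖ * g (k + 1) ≤ (12 * k / (Real.log k) ^ (A + 1)) * (1 / k) :=
          mul_le_mul (hS k hk) hg (g_nonneg _) (by positivity)
      _ = 12 / (Real.log k) ^ (A + 1) := by field_simp
      _ ≤ 12 / (Real.log M) ^ A := by
          apply div_le_div_of_nonneg_left (by norm_num) (by positivity)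
          calc Real.log M ^ A ≤ Real.log k ^ A := pow_le_pow_left₀ (by linarith) hlk _
            _ ≤ Real.log k ^ (A + 1) := pow_le_pow_right₀ (by linarith) (by omega)
  have hsum : ‖∑ k ∈ Ioc M N, SS χ k * ((g k : ℂ) - (g (k + 1) : ℂ))‖ ≤
      48 / (Real.log M) ^ A := by
    calc ‖∑ k ∈ Ioc M N, SS χ k * ((g k : ℂ) - (g (k + 1) : ℂ))‖
        ≤ ∑ k ∈ Ioc M N, ‖SS χ k * ((g k : ℂ) - (g (k + 1) : ℂ))‖ := norm_sum_le _ _
      _ ≤ ∑ k ∈ Ioc M N, 48 / (Real.log M) ^ A *
            (1 / Real.log k - 1 / Real.log ((k : ℝ) + 1)) := by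
          apply Finset.sum_le_sum
          intro k hk
          rw [mem_Ioc] at hk
          rw [norm_mul, ← Complex.ofReal_sub, Complex.norm_real, Real.norm_eq_abs]
          exact (mul_le_mul_of_nonneg_right (hS k hk.1.le) (abs_nonneg _)).trans
            (term_le A M k hM hk.1.le)
      _ = 48 / (Real.log M) ^ A *
            (1 / Real.log ((M : ℝ) + 1) - 1 / Real.log ((N : ℝ) + 1)) := by
          rw [← Finset.mul_sum, tele M N hMN]
      _ ≤ 48 / (Real.log M) ^ A * 1 := by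
          apply mul_le_mul_of_nonneg_left _ (by positivity)
          have h1 : 1 ≤ Real.log ((M : ℝ) + 1) :=
            hlM.trans (Real.log_le_log (by linarith) (by linarith))
          have h2 : 0 ≤ 1 / Real.log ((N : ℝ) + 1) := by
            apply div_nonneg (by norm_num)
            exact Real.log_nonneg (by
              have : (0 : ℝ) ≤ N := Nat.cast_nonneg N
              linarith)
          have h3 : 1 / Real.log ((M : ℝ) + 1) ≤ 1 := by
            rw [div_le_one (by linarith)]; exact h1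
          linarith
      _ = 48 / (Real.log M) ^ A := by ring
  rw [abel χ M N hMN]
  calc ‖SS χ N * (g (N + 1) : ℂ) - SS χ M * (g (M + 1) : ℂ) +
      ∑ k ∈ Ioc M N, SS χ k * ((g k : ℂ) - (g (k + 1) : ℂ))‖
      ≤ ‖SS χ N * (g (N + 1) : ℂ)‖ + ‖SS χ M * (g (M + 1) : ℂ)‖ +
        ‖∑ k ∈ Ioc M N, SS χ k * ((g k : ℂ) - (g (k + 1) : ℂ))‖ :=
        (norm_add_le _ _).trans (add_le_add (norm_sub_le _ _) le_rfl)
    _ ≤ 12 / (Real.log M) ^ A + 12 / (Real.log M) ^ A + 48 / (Real.log M) ^ A :=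
        add_le_add (add_le_add (hb N hMN) (hb M le_rfl)) hsum
    _ = 72 / (Real.log M) ^ A := by ring

theorem t_SW3 : Pool.Agent.Y862.SQ.S_SW3 := by
  obtain ⟨n₁, hn₁⟩ := Pool.Agent.W762.EC.SSA.SS_bound 201 101
  -- the parameter `u = T ^ (1 / 100)`
  set K : ℝ := max (max (2 ^ 103) (72 * 2 ^ 200)) (max (n₁ + 4) (5 * (Nat.factorial 101 : ℝ)))
    with hK
  have hlim : Tendsto (fun T : ℕ => (T : ℝ) ^ (1 / 100 : ℝ)) atTop atTop :=
    (tendsto_rpow_atTop (by norm_num)).comp tendsto_natCast_atTop_atTop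
  obtain ⟨T0, hT0⟩ := eventually_atTop.1 (hlim.eventually_ge_atTop K)
  refine ⟨T0, fun T hT h hh y => ?_⟩
  rw [mem_Icc] at hh
  have hu := hT0 T hT
  set u := (T : ℝ) ^ (1 / 100 : ℝ) with hu_def
  have hu1 : (2 : ℝ) ^ 103 ≤ u := ((le_max_left _ _).trans (le_max_left _ _)).trans hu
  have hu2 : 72 * (2 : ℝ) ^ 200 ≤ u := ((le_max_right _ _).trans (le_max_left _ _)).trans hu
  have hu3 : (n₁ : ℝ) + 4 ≤ u := ((le_max_left _ _).trans (le_max_right _ _)).trans hu
  have hu4 : 5 * (Nat.factorial 101 : ℝ) ≤ u :=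
    ((le_max_right _ _).trans (le_max_right _ _)).trans hu
  have hu0 : 4 ≤ u := by
    have : (0 : ℝ) ≤ n₁ := Nat.cast_nonneg _
    linarith
  have huT : u ^ 100 = T := by
    rw [hu_def, ← Real.rpow_natCast, ← Real.rpow_mul (Nat.cast_nonneg T)]
    norm_num
  have hz : Pool.Agent.Y862.SQ.z2 T = Real.exp u := rfl
  set M := ⌊Real.exp u⌋₊ with hM
  have hMexp : Real.exp u < (M : ℝ) + 1 := Nat.lt_floor_add_one _
  have hMle : (M : ℝ) ≤ Real.exp u := Nat.floor_le (Real.exp_pos u).le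
  have hexpu : u + 1 ≤ Real.exp u := Real.add_one_le_exp u
  have hMn : n₁ ≤ M := by
    apply Nat.le_floor
    linarith
  have hM3 : 3 ≤ M := by
    apply Nat.le_floor
    push_cast
    linarith
  have hM3' : (3 : ℝ) ≤ M := by exact_mod_cast hM3
  -- `4 T ≤ M`
  have h4T : 4 * T ≤ M := by
    apply Nat.le_floor
    push_cast
    rw [← huT]
    have h1 : u ^ 101 / (Nat.factorial 101 : ℝ) ≤ Real.exp u :=
      Real.pow_div_factorial_le_exp u (by linarith) 101
    have h2 : 4 * u ^ 100 ≤ u ^ 101 / (Nat.factorial 101 : ℝ) := by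
      rw [le_div_iff₀ (by positivity)]
      calc 4 * u ^ 100 * (Nat.factorial 101 : ℝ) = u ^ 100 * (4 * (Nat.factorial 101 : ℝ)) := by
            ring
        _ ≤ u ^ 100 * u := by
            apply mul_le_mul_of_nonneg_left _ (by positivity)
            have : (0 : ℝ) ≤ (Nat.factorial 101 : ℝ) := Nat.cast_nonneg _
            linarith
        _ = u ^ 101 := by ring
    linarith
  -- the logarithm of `M`
  have hlogM : u / 2 ≤ Real.log M := by
    rw [Real.le_log_iff_exp_le (by linarith)]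
    have h1 : Real.exp (u / 2) * Real.exp (u / 2) = Real.exp u := by
      rw [← Real.exp_add]; congr 1; ring
    have h2 : 1 + u / 2 ≤ Real.exp (u / 2) := by
      have := Real.add_one_le_exp (u / 2)
      linarith
    nlinarith
  have hu20 : 0 < u / 2 := by linarith
  -- the character
  obtain ⟨q, hq1, hq2, χ, hχ, hval⟩ := char_exists h hh.1
  have hqb : (q : ℝ) ≤ 4 * u ^ 100 := by
    rw [huT]
    have : q ≤ 4 * T := by omega
    exact_mod_cast this
  have hS : ∀ k, M ≤ k → ‖SS χ k‖ ≤ 12 * k / (Real.log k) ^ (200 + 1) := by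
    intro k hk
    refine hn₁ k (hMn.trans hk) q hq1 ?_ χ hχ
    have hMk : (M : ℝ) ≤ k := by exact_mod_cast hk
    have hlk : Real.log M ≤ Real.log k := Real.log_le_log (by linarith) hMk
    have h1 : (u / 2) ^ 101 ≤ Real.log k ^ 101 :=
      pow_le_pow_left₀ hu20.le (hlogM.trans hlk) _
    refine hqb.trans (le_trans ?_ h1)
    rw [div_pow, le_div_iff₀ (by positivity)]
    calc 4 * u ^ 100 * 2 ^ 101 = u ^ 100 * 2 ^ 103 := by ring
      _ ≤ u ^ 100 * u := mul_le_mul_of_nonneg_left hu1 (by positivity)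
      _ = u ^ 101 := by ring
  -- the set of primes
  have hset : (Pool.Agent.Y862.SQ.pr y).filter (fun p : ℕ => Pool.Agent.Y862.SQ.z2 T < p) =
      (Ioc M y).filter Nat.Prime := by
    ext p
    unfold Pool.Agent.Y862.SQ.pr
    rw [hz]
    simp only [mem_filter, mem_Icc, mem_Ioc, hM]
    rw [Nat.floor_lt (Real.exp_pos u).le]
    constructor
    · rintro ⟨⟨⟨_, h1⟩, h2⟩, h3⟩
      exact ⟨⟨h3, h1⟩, h2⟩
    · rintro ⟨⟨h3, h1⟩, h2⟩
      exact ⟨⟨⟨h2.one_lt.le, h1⟩, h2⟩, h3⟩
  rw [hset]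
  rcases Nat.lt_or_ge y M with hy | hy
  · rw [Finset.Ioc_eq_empty_of_le hy.le]
    simp
  have hcast : ((∑ p ∈ (Ioc M y).filter Nat.Prime, (Pool.Agent.Y862.SQ.leg h p : ℝ) / p : ℝ) : ℂ) =
      ∑ k ∈ Ioc M y, av χ k * (g k : ℂ) := by
    rw [Finset.sum_filter]
    push_cast
    apply Finset.sum_congr rfl
    intro k hk
    rw [mem_Ioc] at hk
    unfold av g
    split_ifs with hp
    · rw [hval k hp (by omega)]
      have hk0 : (k : ℂ) ≠ 0 := by
        have := hp.pos
        exact_mod_cast this.ne'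
      have hl : ((Real.log k : ℝ) : ℂ) ≠ 0 := by
        have : 0 < Real.log k := Real.log_pos (by exact_mod_cast hp.one_lt)
        exact_mod_cast this.ne'
      unfold Pool.Agent.Y862.SQ.leg
      push_cast at hl ⊢
      field_simp
    · simp
  have hfin := sum_bound χ 200 M y hM3 hy hS
  rw [← hcast, Complex.norm_real, Real.norm_eq_abs] at hfin
  refine hfin.trans ?_
  have hTpos : (0 : ℝ) < T := by
    rw [← huT]; positivity
  have h1 : (u / 2) ^ 200 ≤ Real.log M ^ 200 := pow_le_pow_left₀ hu20.le hlogM _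
  calc 72 / Real.log M ^ 200 ≤ 72 / (u / 2) ^ 200 :=
        div_le_div_of_nonneg_left (by norm_num) (by positivity) h1
    _ = (72 * 2 ^ 200) / (u ^ 100 * u ^ 100) := by
        rw [div_pow, div_div_eq_mul_div, ← pow_add]
    _ ≤ u ^ 100 / (u ^ 100 * u ^ 100) := by
        apply div_le_div_of_nonneg_right _ (by positivity)
        refine hu2.trans ?_
        calc u = u ^ 1 := (pow_one u).symm
          _ ≤ u ^ 100 := pow_le_pow_right₀ (by linarith) (by norm_num)
    _ = 1 / T := by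
        rw [huT]
        field_simp

end Pool.Agent.Y848.SQ
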